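import Pool.Agent.Lib.MP_8f7fef_co.Example

set_option autoImplicit false

/-! Connectivity of polycube animals under single-cube moves fails in `ℝ^48`: there is an animal
which is not connected by moves to a single cube. -/

namespace Pool.Agent.Results.MP_8f7fef_co.LockedStar

open Pool.Agent.Lib.MP_8f7fef_co

/-- the closed unit cube with lowest corner `x` -/
def cube {d : ℕ} (x : Fin d → ℤ) : Set (Fin d → ℝ) :=
  {y | ∀ i, (x i : ℝ) ≤ y i ∧ y i ≤ (x i : ℝ) + 1}

/-- the union of the cubes of a configuration -/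
def union {d : ℕ} (C : Finset (Fin d → ℤ)) : Set (Fin d → ℝ) := ⋃ x ∈ C, cube x

/-- an animal: a nonempty configuration the boundary of whose union is homeomorphic to the
sphere of dimension `d - 1` -/
def IsAnimal {d : ℕ} (C : Finset (Fin d → ℤ)) : Prop :=
  C.Nonempty ∧
    Nonempty (↥(frontier (union C)) ≃ₜ ↥(Metric.sphere (0 : EuclideanSpace ℝ (Fin d)) 1))

/-- an elementary move: one cube is added or removed -/
def Move {d : ℕ} (C D : Finset (Fin d → ℤ)) : Prop :=
  (∃ Q, Q ∉ C ∧ D = insert Q C) ∨ ∃ Q, Q ∈ C ∧ D = C.erase Q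

/-- `A` and `B` are connected by moves through animals -/
def Connected {d : ℕ} (A B : Finset (Fin d → ℤ)) : Prop :=
  ∃ (m : ℕ) (c : ℕ → Finset (Fin d → ℤ)), c 0 = A ∧ c m = B ∧ (∀ j, j ≤ m → IsAnimal (c j)) ∧
    ∀ j, j < m → Move (c j) (c (j + 1))

theorem symmDiff_insert_card {α : Type} [DecidableEq α] (C : Finset α) (Q : α) (hQ : Q ∉ C) :
    (symmDiff C (insert Q C)).card = 1 := by
  have : symmDiff C (insert Q C) = {Q} := by
    ext x
    simp only [Finset.mem_symmDiff, Finset.mem_insert, Finset.mem_singleton]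
    by_cases hx : x = Q
    · subst hx; tauto
    · tauto
  rw [this, Finset.card_singleton]

theorem symmDiff_erase_card {α : Type} [DecidableEq α] (C : Finset α) (Q : α) (hQ : Q ∈ C) :
    (symmDiff C (C.erase Q)).card = 1 := by
  have : symmDiff C (C.erase Q) = {Q} := by
    ext x
    simp only [Finset.mem_symmDiff, Finset.mem_erase, Finset.mem_singleton]
    by_cases hx : x = Q
    · subst hx; tauto
    · tauto
  rw [this, Finset.card_singleton]

/-- In `ℝ^48` there is an animal which is not connected by moves to a certain single cube. -/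
theorem result : ∃ A B : Finset (Fin 48 → ℤ), IsAnimal A ∧ IsAnimal B ∧ B.card = 1 ∧
    ¬ Connected A B := by
  classical
  have : Nonempty (Fin 48) := ⟨0⟩
  have hU : ∀ C : Finset (Fin 48 → ℤ), union C = UU C := fun C => rfl
  have hne : ∀ C : Finset (Fin 48 → ℤ), PP C → C.Nonempty := by
    intro C hC
    by_contra h
    rw [Finset.not_nonempty_iff_eq_empty] at h
    subst h
    obtain ⟨φ⟩ := hC
    obtain ⟨x, hx⟩ := (NormedSpace.sphere_nonempty (E := EuclideanSpace ℝ (Fin 48)) (x := 0)
      (r := 1)).mpr zero_le_one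
    have h1 := (φ.symm ⟨x, hx⟩).2
    simp [UU] at h1
  have hA : ∀ C : Finset (Fin 48 → ℤ), IsAnimal C ↔ PP C := fun C =>
    ⟨fun h => h.2, fun h => ⟨hne C h, h⟩⟩
  refine ⟨starSet ff, starSet (fun x => decide (x = w0)), (hA _).2 (PP_of_good _ good_ff),
    (hA _).2 (PP_of_good _ (good_single w0)), ?_, ?_⟩
  · rw [starSet, Finset.card_image_of_injective _ cellOf_injective]
    simp only [decide_eq_true_eq]
    rw [Finset.filter_eq']
    simp
  · rintro ⟨m, c, h0, hm, han, hmv⟩
    refine not_reachable ?_
    have key : ∀ j, j ≤ m → Relation.ReflTransGen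
        (fun X Y : Finset (Fin 48 → ℤ) => PP X ∧ PP Y ∧ (symmDiff X Y).card = 1)
        (starSet ff) (c j) := by
      intro j
      induction j with
      | zero => intro _; rw [h0]
      | succ j ih =>
        intro hj
        refine (ih (by omega)).tail ⟨(hA _).1 (han j (by omega)), (hA _).1 (han _ hj), ?_⟩
        rcases hmv j (by omega) with ⟨Q, hQ, hD⟩ | ⟨Q, hQ, hD⟩
        · rw [hD]
          convert symmDiff_insert_card (c j) Q hQ
        · rw [hD]
          convert symmDiff_erase_card (c j) Q hQ
    have := key m le_rfl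
    rwa [hm] at this

end Pool.Agent.Results.MP_8f7fef_co.LockedStar
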